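import Mathlib
import Pool.Agent.H17.PF

set_option autoImplicit false

namespace Pool.Agent.Results.MP_e10d7f_nt.DegreeFour

def Primitive {n : ℕ} (A : Matrix (Fin n) (Fin n) ℕ) : Prop :=
  ∃ N : ℕ, 1 ≤ N ∧ ∀ i j, 0 < (A ^ N) i j

def HasSpecRad {n : ℕ} (A : Matrix (Fin n) (Fin n) ℕ) (ρ : ℝ) : Prop :=
  IsGreatest ((fun z : ℂ => ‖z‖) '' spectrum ℂ (A.map fun a => (a : ℂ))) ρ

open Pool.Agent.H17.PF in
theorem result (l : ℝ) (h0 : 0 < l) (hl : l ^ 3 + 3 * l ^ 2 - 15 * l - 46 = 0) :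
    IsLeast {n : ℕ | ∃ A : Matrix (Fin n) (Fin n) ℕ, Primitive A ∧ HasSpecRad A l} 4 := by
  constructor
  · refine ⟨!![0, 1, 0, 0; 10, 0, 1, 0; 1, 0, 0, 2; 1, 0, 7, 0], ⟨5, by norm_num, by decide⟩, ?_⟩
    have hc : (l : ℂ) ^ 3 + 3 * l ^ 2 - 15 * l - 46 = 0 := by exact_mod_cast hl
    have key : ∀ z : ℂ, z ∈ spectrum ℂ ((!![0, 1, 0, 0; 10, 0, 1, 0; 1, 0, 0, 2; 1, 0, 7, 0] :
        Matrix (Fin 4) (Fin 4) ℕ).map fun a => (a : ℂ)) ↔
        (z - 3) * (z - l) * (z ^ 2 + (3 + l) * z + (l ^ 2 + 3 * l - 15)) = 0 := by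
      intro z
      rw [mem_spec]
      apply Eq.congr_left
      simp [Matrix.det_succ_row_zero, Fin.sum_univ_succ, Fin.succAbove, Matrix.diagonal]
      linear_combination (z - 3) * hc
    have a1 : 15 < l ^ 2 := by nlinarith
    have a2 : l < 5 := by nlinarith
    have a3 : 3 < l := by nlinarith
    refine ⟨⟨l, (key _).2 (by simp), by simp [h0.le]⟩, ?_⟩
    rintro _ ⟨z, hz, rfl⟩
    rcases mul_eq_zero.1 ((key z).1 hz) with h | h
    · rcases mul_eq_zero.1 h with h | h <;> simp [sub_eq_zero.1 h, a3.le, abs_of_pos h0]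
    · have re := congrArg Complex.re h
      have im := congrArg Complex.im h
      simp [pow_succ] at re im
      refine (abs_le_of_sq_le_sq' ?_ h0.le).2
      rw [Complex.sq_norm, Complex.normSq_apply]
      by_cases hv : z.im = 0
      · rw [hv] at re ⊢
        by_contra hc
        have : 0 < (z.re - l) * (z.re + l) := by linarith
        rcases pos_and_pos_or_neg_and_neg_of_mul_pos this with h | h <;> nlinarith [h.1, h.2]
      · have : 2 * z.re + 3 + l = 0 := mul_left_cancel₀ hv (by linear_combination im)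
        have : z.re * z.re + z.im * z.im = l ^ 2 + 3 * l - 15 := by
          linear_combination z.re * this - re
        linarith
  · rintro n ⟨A, -, ⟨z, hz, hn⟩, -⟩
    by_contra hlt
    rw [mem_spec] at hz
    obtain rfl | rfl | rfl | rfl : n = 0 ∨ n = 1 ∨ n = 2 ∨ n = 3 := by omega
    · simp at hz
    · have := cubic hl (A 0 0) 0 0 z (by
        simp at hz
        push_cast
        linear_combination z ^ 2 * hz) hn
      omega
    · have := cubic hl (A 0 0 + A 1 1) (A 0 0 * A 1 1 - A 0 1 * A 1 0) 0 z (by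
        simp [Matrix.det_fin_two] at hz
        push_cast
        linear_combination z * hz) hn
      omega
    · have := cubic hl (A 0 0 + A 1 1 + A 2 2)
        (A 0 0 * A 1 1 + A 0 0 * A 2 2 + A 1 1 * A 2 2 - (A 0 1 * A 1 0 : ℕ) - (A 0 2 * A 2 0 : ℕ) -
          (A 1 2 * A 2 1 : ℕ))
        (A 0 0 * A 1 1 * A 2 2 - A 0 0 * (A 1 2 * A 2 1 : ℕ) - A 1 1 * (A 0 2 * A 2 0 : ℕ) -
          A 2 2 * (A 0 1 * A 1 0 : ℕ) + (A 0 1 * A 1 2 * A 2 0 + A 0 2 * A 1 0 * A 2 1 : ℕ)) z (by
        simp [Matrix.det_fin_three] at hz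
        push_cast
        linear_combination hz) hn
      generalize A 0 1 * A 1 2 * A 2 0 + A 0 2 * A 1 0 * A 2 1 = c at this
      generalize A 0 1 * A 1 0 = x at this
      generalize A 0 2 * A 2 0 = y at this
      generalize A 1 2 * A 2 1 = w at this
      generalize A 0 0 = a at this
      generalize A 1 1 = b at this
      generalize A 2 2 = d at this
      obtain ⟨h1, h2, h3⟩ := this.resolve_left (by omega)
      have : a ≤ 3 := by omega
      have : b ≤ 3 := by omega
      have : d ≤ 3 := by omega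
      interval_cases a <;> interval_cases b <;> interval_cases d <;> omega

end Pool.Agent.Results.MP_e10d7f_nt.DegreeFour
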